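import Pool.Agent.MTL.Stmts

/-! Module DEC of MTL: the decomposition group of a place above `t = n` is mapped onto the Galois
group of `ℚ`. -/

set_option autoImplicit false

namespace Pool.Agent.MTL.H83

open Polynomial Pool.Agent.MTL

/-- the elements integral over `ℚ[t]` which are fixed by the Galois group are polynomials -/
instance inv : Algebra.IsInvariant ℚ[X] BB GT := by
  refine ⟨fun b hb => ?_⟩
  have h1 : (b : Om) ∈ (⊥ : IntermediateField (RatFunc ℚ) Om) := by
    rw [InfiniteGalois.mem_bot_iff_fixed]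
    intro σ
    exact congrArg Subtype.val (hb σ)
  rw [IntermediateField.mem_bot] at h1
  obtain ⟨q, hq⟩ := h1
  have h2 : IsIntegral ℚ[X] q := by
    have h3 : IsIntegral ℚ[X] (algebraMap (RatFunc ℚ) Om q) := by
      rw [hq]
      exact b.2
    exact (isIntegral_algebraMap_iff (algebraMap (RatFunc ℚ) Om).injective).1 h3
  obtain ⟨a, ha⟩ := IsIntegrallyClosed.isIntegral_iff.1 h2
  refine ⟨a, Subtype.ext ?_⟩
  rw [← hq, ← ha]
  exact (IsScalarTower.algebraMap_apply ℚ[X] (RatFunc ℚ) Om a)

theorem cont (b : BB) (c : BB) : IsOpen {σ : GT | σ • b = c} := by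
  rw [isOpen_iff_mem_nhds]
  intro σ hσ
  have hfd : FiniteDimensional (RatFunc ℚ) (IntermediateField.adjoin (RatFunc ℚ) {(b : Om)}) :=
    IntermediateField.adjoin.finiteDimensional (Algebra.IsIntegral.isIntegral _)
  have ho : IsOpen ((IntermediateField.adjoin (RatFunc ℚ) {(b : Om)}).fixingSubgroup : Set GT) :=
    IntermediateField.fixingSubgroup_isOpen _
  have h1 : {τ : GT | σ⁻¹ * τ ∈ ((IntermediateField.adjoin (RatFunc ℚ) {(b : Om)}).fixingSubgroup :
      Set GT)} ∈ nhds σ := by
    refine (ho.preimage (continuous_const.mul continuous_id)).mem_nhds ?_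
    change σ⁻¹ * σ ∈ (IntermediateField.adjoin (RatFunc ℚ) {(b : Om)}).fixingSubgroup
    rw [inv_mul_cancel]
    exact Subgroup.one_mem _
  refine Filter.mem_of_superset h1 ?_
  intro τ hτ
  change τ • b = c
  have h2 : (σ⁻¹ * τ) • (b : Om) = b := by
    have := (IntermediateField.mem_fixingSubgroup_iff _ _).1 hτ (b : Om)
      (IntermediateField.mem_adjoin_simple_self _ _)
    exact this
  rw [← (show σ • b = c from hσ)]
  apply Subtype.ext
  change τ • (b : Om) = σ • (b : Om)
  rw [mul_smul, inv_smul_eq_iff] at h2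
  exact h2

/-- `π` is evaluation at `n` on polynomials -/
theorem pi_poly {n : ℕ} {π : BB →+* AlgebraicClosure ℚ} (hπ : π (algebraMap ℚ[X] BB X) = n)
    (f : ℚ[X]) : π (algebraMap ℚ[X] BB f) = algebraMap ℚ (AlgebraicClosure ℚ) (f.eval (n : ℚ)) := by
  have h : π.comp (algebraMap ℚ[X] BB) =
      (algebraMap ℚ (AlgebraicClosure ℚ)).comp (evalRingHom (n : ℚ)) := by
    refine Polynomial.ringHom_ext' (Subsingleton.elim _ _) ?_
    simp [hπ]
  exact RingHom.congr_fun h f

/-- `π` is surjective -/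
theorem pi_surj {n : ℕ} {π : BB →+* AlgebraicClosure ℚ} (hπ : π (algebraMap ℚ[X] BB X) = n) :
    Function.Surjective π := by
  intro y
  have hint : IsIntegral ℚ y := (AlgebraicClosure.isAlgebraic ℚ).isIntegral.isIntegral y
  obtain ⟨f, hf⟩ : ∃ f : ℚ[X], f = minpoly ℚ y := ⟨_, rfl⟩
  have hmon : f.Monic := by
    rw [hf]
    exact minpoly.monic hint
  -- the polynomial over `BB`
  obtain ⟨F, hF⟩ : ∃ F : BB[X], F = (f.map (algebraMap ℚ ℚ[X])).map (algebraMap ℚ[X] BB) :=
    ⟨_, rfl⟩
  have hFmon : F.Monic := by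
    rw [hF]
    exact (hmon.map _).map _
  -- its roots in `Om`
  have hsplit : (F.map (algebraMap BB Om)).Splits := IsAlgClosed.splits _
  have hroot : ∀ z ∈ (F.map (algebraMap BB Om)).roots, ∃ b : BB, (b : Om) = z := by
    intro z hz
    have h1 : IsIntegral ℚ[X] z := by
      refine ⟨f.map (algebraMap ℚ ℚ[X]), hmon.map _, ?_⟩
      have h2 := (Polynomial.mem_roots'.1 hz).2
      rw [IsRoot, hF, eval_map, eval₂_map] at h2
      exact h2
    exact ⟨⟨z, h1⟩, rfl⟩
  have hprod : F.map (algebraMap BB Om) =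
      ((F.map (algebraMap BB Om)).roots.map fun a => X - C a).prod := by
    exact (Polynomial.Splits.eq_prod_roots_of_monic hsplit (hFmon.map _))
  obtain ⟨s, hs⟩ : ∃ s : Multiset BB, s.map (fun b : BB => (b : Om)) =
      (F.map (algebraMap BB Om)).roots := by
    have hroot' : ∀ z ∈ (F.map (algebraMap BB Om)).roots, z ∈ BB := by
      intro z hz
      obtain ⟨b, rfl⟩ := hroot z hz
      exact b.2
    refine ⟨(F.map (algebraMap BB Om)).roots.pmap (fun z hz => ⟨z, hz⟩) hroot', ?_⟩
    rw [Multiset.map_pmap, Multiset.pmap_eq_map, Multiset.map_id']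
  have h7 : F = (s.map fun b => X - C b).prod := by
    apply Polynomial.map_injective (algebraMap BB Om) Subtype.val_injective
    rw [hprod, ← hs, Polynomial.map_multiset_prod, Multiset.map_map, Multiset.map_map]
    refine congrArg _ (Multiset.map_congr rfl fun b _ => ?_)
    change X - C (b : Om) = Polynomial.map (algebraMap BB Om) (X - C b)
    rw [Polynomial.map_sub, Polynomial.map_X, Polynomial.map_C]
    rfl
  have h5 : F.map π = f.map (algebraMap ℚ (AlgebraicClosure ℚ)) := by
    rw [hF, Polynomial.map_map, Polynomial.map_map]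
    exact congrArg (fun φ => f.map φ) (Subsingleton.elim _ _)
  have h6 : eval y (F.map π) = 0 := by
    rw [h5, eval_map, ← aeval_def, hf, minpoly.aeval]
  have h8 : eval y (F.map π) = (s.map fun b => y - π b).prod := by
    rw [h7, Polynomial.map_multiset_prod, Multiset.map_map, eval_multiset_prod, Multiset.map_map]
    refine congrArg _ (Multiset.map_congr rfl fun b _ => ?_)
    simp
  rw [h8, Multiset.prod_eq_zero_iff, Multiset.mem_map] at h6
  obtain ⟨b, -, hb⟩ := h6
  exact ⟨b, (sub_eq_zero.1 hb).symm⟩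

theorem dec : DecStmt := by
  intro n π hπ τ
  have hsurj := pi_surj hπ
  let _ : TopologicalSpace BB := ⊥
  have : DiscreteTopology BB := ⟨rfl⟩
  have : ContinuousSMul GT BB := by
    refine ⟨?_⟩
    rw [continuous_prod_of_discrete_right]
    intro b
    rw [continuous_discrete_rng]
    exact fun c => cont b c
  let Q : Ideal BB := RingHom.ker π
  have : Q.IsPrime := RingHom.ker_isPrime π
  let P : Ideal ℚ[X] := Q.under ℚ[X]
  have : Q.LiesOver P := ⟨rfl⟩
  let e : (BB ⧸ Q) ≃+* AlgebraicClosure ℚ := RingHom.quotientKerEquivOfSurjective hsurj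
  have he : ∀ b : BB, e (Ideal.Quotient.mk Q b) = π b := fun b => rfl
  have hcomm : ∀ r : ℚ[X] ⧸ P, (e.trans (τ.toRingEquiv.trans e.symm))
      (algebraMap (ℚ[X] ⧸ P) (BB ⧸ Q) r) = algebraMap (ℚ[X] ⧸ P) (BB ⧸ Q) r := by
    intro r
    obtain ⟨f, rfl⟩ := Ideal.Quotient.mk_surjective r
    change e.symm (τ (e (Ideal.Quotient.mk Q (algebraMap ℚ[X] BB f)))) =
      Ideal.Quotient.mk Q (algebraMap ℚ[X] BB f)
    rw [e.symm_apply_eq, he, pi_poly hπ]
    exact τ.commutes _
  obtain ⟨g, hg⟩ := Ideal.Quotient.stabilizerHom_surjective_of_profinite (G := GT) P Q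
    (AlgEquiv.ofRingEquiv (f := e.trans (τ.toRingEquiv.trans e.symm)) hcomm)
  refine ⟨g.1, fun b => ?_⟩
  have h1 := DFunLike.congr_fun hg (Ideal.Quotient.mk Q b)
  have h2 : Ideal.Quotient.mk Q (g.1 • b) = e.symm (τ (e (Ideal.Quotient.mk Q b))) := h1
  have h3 := congrArg e h2
  rw [e.apply_symm_apply, he, he] at h3
  exact h3

end Pool.Agent.MTL.H83
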